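import Mathlib
import Pool.Agent.H.MP_e13726_nt.S0
import Pool.Agent.H.MP_e13726_nt.S1
import Pool.Agent.H.MP_e13726_nt.S2
import Pool.Agent.H.MP_e13726_nt.S3
import Pool.Agent.H.MP_e13726_nt.S4
import Pool.Agent.H.MP_e13726_nt.S5
import Pool.Agent.H.MP_e13726_nt.S6
import Pool.Agent.H.MP_e13726_nt.S7
import Pool.Agent.H.MP_e13726_nt.S8
import Pool.Agent.H.MP_e13726_nt.S9
import Pool.Agent.H.MP_e13726_nt.S10
import Pool.Agent.H.MP_e13726_nt.S11
import Pool.Agent.H.MP_e13726_nt.S12
import Pool.Agent.H.MP_e13726_nt.S13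
import Pool.Agent.H.MP_e13726_nt.S14
import Pool.Agent.H.MP_e13726_nt.S15
import Pool.Agent.H.MP_e13726_nt.S16

set_option autoImplicit false

namespace Pool.Agent.Results.MP_e13726_nt.No

open Pool.Agent.H.MP_e13726_nt Finset Real

/-- the sum of the `2n` smallest primes -/
noncomputable def S (n : ℕ) : ℕ := ∑ i ∈ range (2 * n), Nat.nth Nat.Prime i

/-- the number of primes among `S 1, …, S n` -/
noncomputable def piS (n : ℕ) : ℕ := ((Icc 1 n).filter fun k => (S k).Prime).card

noncomputable def Rn (n : ℕ) : ℝ := 2 * (n : ℝ) ^ (5 / 2 : ℝ) * log n / S n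

theorem data : ∃ n, n = 4003138 ∧ S n = 550420433773865 ∧ piS n ≤ 252202 := by
  have h0 : R 0 (2 * 2 + 1) 2535301200493352291140825513989 := by
    have a1 : A 1 = 2 := by simp [A]
    have a2 : A 2 = 5 := by simp [A, sum_range_succ]
    refine ⟨2, 2, by decide, by rw [a2]; norm_num, ?_, le_rfl, by rw [a2]; norm_num, Nat.zero_le _⟩
    refine (card_le_card (t := {1, 2}) fun i hi => ?_).trans card_le_two
    rw [mem_filter, mem_range] at hi
    rcases (by omega : i = 0 ∨ i = 1 ∨ i = 2) with rfl | rfl | rfl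
    · exact absurd hi.2 (by simp [A, Nat.not_prime_zero])
    all_goals simp
  obtain ⟨c, u, h1, h2, h3, h4, h5, -⟩ := seg16 (seg15 (seg14 (seg13 (seg12 (seg11 (seg10 (seg9 (seg8 (seg7 (seg6 (seg5 (seg4 (seg3 (seg2 (seg1 (seg0 h0))))))))))))))))
  have h6 : c ≤ 2 * 70884352 + 1 := h1.trans_le (Nat.count_le _)
  clear h1
  obtain ⟨h7, rfl, h8⟩ : c = 2 * 4003138 ∧ u = 252202 ∧ A c = 550420433773865 := by omega
  obtain ⟨n, hn⟩ : ∃ n, n = 4003138 := ⟨_, rfl⟩
  rw [← hn] at h7
  subst h7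
  refine ⟨n, hn, h8, le_trans ?_ h3⟩
  refine card_le_card_of_injOn (fun k => 2 * k) (fun k hk => ?_) fun a _ b _ e => by
    beta_reduce at e; omega
  simp only [coe_filter, mem_Icc, mem_range, Set.mem_setOf_eq] at hk ⊢
  exact ⟨by omega, hk.2⟩

theorem result :
    ¬ ∀ n : ℕ, 4 * 10 ^ 6 ≤ n → ∀ x : ℝ, 1 < x → x * log x = Rn n ^ 2 → ⌊x⌋₊ ≤ piS n := by
  intro h
  obtain ⟨n, hn, h1, h2⟩ := data
  have hn' : (n : ℝ) = 4003138 := by exact_mod_cast hn
  have l1 : 15.20255 ≤ log n := by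
    rw [le_log_iff_exp_le (by positivity), hn', show (15.20255 : ℝ) = (15 : ℕ) * 1 + 0.20255 by
      norm_num, exp_add, exp_nat_mul]
    have a := exp_bound' (x := 0.20255) (by norm_num) (by norm_num) (n := 7) (by norm_num)
    have b := pow_le_pow_left₀ (exp_pos 1).le exp_one_lt_d9.le 15
    refine (mul_le_mul b a (exp_pos _).le (by positivity)).trans ?_
    norm_num [sum_range_succ, Nat.factorial]
  have l2 : log 252203 ≤ 12.43803 := by
    rw [log_le_iff_le_exp (by norm_num), show (12.43803 : ℝ) = (12 : ℕ) * 1 + 0.43803 by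
      norm_num, exp_add, exp_nat_mul]
    have a := sum_le_exp_of_nonneg (x := 0.43803) (by norm_num) 9
    have b := pow_le_pow_left₀ (by norm_num) exp_one_gt_d9.le 12
    refine le_trans ?_ (mul_le_mul b a (by norm_num [sum_range_succ, Nat.factorial]) (by positivity))
    norm_num [sum_range_succ, Nat.factorial]
  have l3 : 252203 * log 252203 ≤ Rn n ^ 2 := by
    have e : ((n : ℝ) ^ (5 / 2 : ℝ)) ^ 2 = n ^ 5 := by
      rw [← rpow_natCast, ← rpow_mul (by positivity), ← rpow_natCast]; norm_num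
    have := pow_le_pow_left₀ (by norm_num) l1 2
    rw [Rn, h1, div_pow, mul_pow, mul_pow, e, le_div_iff₀ (by positivity)]
    generalize log n = L at *
    rw [hn']
    push_cast
    nlinarith
  have h := h n (by omega)
  generalize Rn n ^ 2 = r at *
  have l4 : 1 ≤ log 252203 := by
    rw [le_log_iff_exp_le (by norm_num)]
    exact exp_one_lt_d9.le.trans (by norm_num)
  have l5 : 252203 ≤ r := by linarith
  obtain ⟨x, hx, e⟩ := intermediate_value_Icc l5 continuous_mul_log.continuousOn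
    ⟨l3, le_mul_of_one_le_right (by linarith) (l4.trans (log_le_log (by norm_num) l5))⟩
  have := h x (by linarith [hx.1]) e
  have : 252203 ≤ ⌊x⌋₊ := Nat.le_floor (by exact_mod_cast hx.1)
  omega

end Pool.Agent.Results.MP_e13726_nt.No
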